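import Pool.Agent.W580.SH.Final
import Pool.Agent.W212.SH.Low
import Pool.Agent.Y424.HS.Cone
import Pool.Agent.Y424.HS.Half

/-!
# MP_c07b9b_co, Q1: the growth of the shifted Heller constant

`h_s(m) ~ m²`, with `|h_s(m) - m²| ≤ m` for every `m ≥ 1`.
-/

set_option autoImplicit false

namespace Pool.Agent.Results.MP_c07b9b_co.HellerGrowth

open Filter Topology Asymptotics

/-- `M` is totally `1`-submodular: every square submatrix of every size `k` (rows and columns
picked by arbitrary maps `r`, `c`, so in particular by all injective ones) has determinant in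
`[-1,1]` -/
def Totally1Submodular {m n : ℕ} (M : Matrix (Fin m) (Fin n) ℝ) : Prop :=
  ∀ (k : ℕ) (r : Fin k → Fin m) (c : Fin k → Fin n), |(M.submatrix r c).det| ≤ 1

/-- the numbers `n` for which there are `t ∈ [0,1)^m \ {0}` and an `m × n` matrix `A` with entries
`-1, 0, 1` and pairwise distinct columns such that `t + A` is totally `1`-submodular -/
def Sizes (m : ℕ) : Set ℕ :=
  {n | ∃ (t : Fin m → ℝ) (A : Matrix (Fin m) (Fin n) ℝ),
    (∀ i, 0 ≤ t i ∧ t i < 1) ∧ t ≠ 0 ∧
    (∀ i j, A i j = -1 ∨ A i j = 0 ∨ A i j = 1) ∧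
    Function.Injective A.transpose ∧
    Totally1Submodular (Matrix.of fun i j => t i + A i j)}

/-- the shifted Heller constant `h_s(m)` -/
noncomputable def shiftedHeller (m : ℕ) : ℕ := sSup (Sizes m)

theorem sizes_eq (m : ℕ) : Sizes m = Pool.Agent.W580.SH.ShiftedSizes m := rfl

theorem heller_eq (m : ℕ) : shiftedHeller m = Pool.Agent.W580.SH.shiftedHeller m := rfl

/-- the example with one row: `1/2` and `-1/2` -/
theorem two_mem : 2 ∈ Sizes 1 := by
  refine ⟨fun _ => 1 / 2, Matrix.of fun _ j => if j = 0 then 0 else -1, fun _ => by norm_num, ?_,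
    ?_, ?_, ?_⟩
  · intro h
    have := congrFun h 0
    simp at this
  · intro i j
    rw [Matrix.of_apply]
    split_ifs
    · right; left; rfl
    · left; rfl
  · intro j j' h
    have := congrFun h 0
    simp only [Matrix.transpose_apply, Matrix.of_apply] at this
    fin_cases j <;> fin_cases j' <;> simp_all
  · intro k r c
    rcases k with _ | k
    · simp
    rcases k with _ | k
    · rw [Matrix.det_fin_one, Matrix.submatrix_apply, Matrix.of_apply, Matrix.of_apply]
      split_ifs <;> rw [abs_le] <;> constructor <;> norm_num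
    · have : ((Matrix.of fun (i : Fin 1) (j : Fin 2) => (1 / 2 : ℝ) +
          (Matrix.of fun (_ : Fin 1) (j : Fin 2) => if j = 0 then (0 : ℝ) else -1) i j).submatrix
          r c).det = 0 := by
        apply Matrix.det_zero_of_row_eq (i := 0) (j := 1) (by simp)
        funext b
        rw [Matrix.submatrix_apply, Matrix.submatrix_apply, Subsingleton.elim (r 0) (r 1)]
      rw [this]; simp

theorem size_le {m n : ℕ} (h : n ∈ Sizes m) : n ≤ shiftedHeller m :=
  le_csSup (Pool.Agent.W580.SH.bdd_shifted m) h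

theorem low (m : ℕ) (hm : 1 ≤ m) : m ^ 2 + 2 ≤ shiftedHeller m + m := by
  obtain ⟨d, rfl⟩ := Nat.exists_eq_add_of_le' hm
  rcases Nat.eq_zero_or_pos d with h0 | h0
  · subst h0
    have := size_le two_mem
    norm_num
    omega
  · have := size_le (m := d + 1) (Pool.Agent.Y424.HS.lower d h0)
    nlinarith

theorem up (m : ℕ) (hm : 1 ≤ m) : shiftedHeller m ≤ m ^ 2 + m :=
  (Pool.Agent.W580.SH.all Pool.Agent.W212.SH.main m hm).2.2.2.1

theorem abs_sub (m : ℕ) (hm : 1 ≤ m) : |(shiftedHeller m : ℝ) - (m : ℝ) ^ 2| ≤ m := by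
  have h1 : ((m : ℝ) ^ 2 + 2) ≤ shiftedHeller m + m := by exact_mod_cast low m hm
  have h2 : (shiftedHeller m : ℝ) ≤ (m : ℝ) ^ 2 + m := by exact_mod_cast up m hm
  rw [abs_le]
  constructor <;> linarith

theorem equiv : (fun m : ℕ => (shiftedHeller m : ℝ)) ~[atTop] fun m : ℕ => (m : ℝ) ^ 2 := by
  have hb : ((fun m : ℕ => (shiftedHeller m : ℝ)) - fun m : ℕ => (m : ℝ) ^ 2) =O[atTop]
      fun m : ℕ => (m : ℝ) := by
    refine IsBigO.of_bound 1 ?_
    filter_upwards [eventually_ge_atTop 1] with m hm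
    simp only [Pi.sub_apply, Real.norm_eq_abs, one_mul]
    rw [abs_of_nonneg (a := (m : ℝ)) (Nat.cast_nonneg m)]
    exact abs_sub m hm
  have ho : (fun m : ℕ => (m : ℝ)) =o[atTop] fun m : ℕ => (m : ℝ) ^ 2 := by
    have h := (isLittleO_pow_pow_atTop_of_lt (𝕜 := ℝ) (p := 1) (q := 2) (by norm_num)).comp_tendsto
      tendsto_natCast_atTop_atTop
    simpa [Function.comp_def] using h
  exact hb.trans_isLittleO ho

/-- **Full answer to Q1.** For every `m ≥ 1` the maximum `h_s(m)` exists and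
`m² - m + 2 ≤ h_s(m) ≤ m² + m`; hence `h_s(m) ~ m²` and `h_s(m) = Θ(m²)` as `m → ∞`, with error
term at most `m`. -/
theorem result :
    (∀ m : ℕ, 1 ≤ m → IsGreatest (Sizes m) (shiftedHeller m)) ∧
    (∀ m : ℕ, 1 ≤ m → m ^ 2 - m + 2 ≤ shiftedHeller m ∧ shiftedHeller m ≤ m ^ 2 + m) ∧
    (∀ m : ℕ, 1 ≤ m → |(shiftedHeller m : ℝ) - (m : ℝ) ^ 2| ≤ m) ∧
    ((fun m : ℕ => (shiftedHeller m : ℝ)) ~[atTop] fun m : ℕ => (m : ℝ) ^ 2) ∧
    ((fun m : ℕ => (shiftedHeller m : ℝ)) =Θ[atTop] fun m : ℕ => (m : ℝ) ^ 2) ∧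
    Tendsto (fun m : ℕ => (shiftedHeller m : ℝ) / (m : ℝ) ^ 2) atTop (𝓝 1) := by
  refine ⟨fun m hm => (Pool.Agent.W580.SH.all Pool.Agent.W212.SH.main m hm).1, fun m hm => ⟨?_, up m hm⟩,
    abs_sub, equiv, equiv.isTheta, ?_⟩
  · have := low m hm
    have h2 : m ≤ m ^ 2 := by nlinarith
    omega
  · have hz : ∀ᶠ m : ℕ in atTop, (m : ℝ) ^ 2 ≠ 0 := by
      filter_upwards [eventually_ge_atTop 1] with m hm
      have : (0 : ℝ) < m := by exact_mod_cast hm
      positivity
    have := (isEquivalent_iff_tendsto_one hz).1 equiv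
    exact this

end Pool.Agent.Results.MP_c07b9b_co.HellerGrowth
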